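import Pool.Agent.E8helper11.GS.Stm

/-! Project GS, piece TUP. -/

set_option autoImplicit false

namespace Pool.Agent.E8helper83.GS

open Pool.Agent.E8helper11.GS
open scoped Classical

theorem t_TUP : Pool.Agent.E8helper11.GS.S_TUP := by
  intro u hu x j hx
  unfold N0ef6d136.t
  refine csSup_le' fun k hk => ?_
  have h1 : ∏ i ∈ Finset.range k, u i ≤ x := hk
  have h2 : 2 ^ k ≤ ∏ i ∈ Finset.range k, u i := by
    calc 2 ^ k = ∏ _i ∈ Finset.range k, 2 := by rw [Finset.prod_const, Finset.card_range]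
      _ ≤ ∏ i ∈ Finset.range k, u i := Finset.prod_le_prod' fun i _ => hu i
  have h3 : 2 ^ k < 2 ^ (2 * j) := by
    calc 2 ^ k ≤ x := h2.trans h1
      _ < 4 ^ j := hx
      _ = 2 ^ (2 * j) := by rw [pow_mul]; norm_num
  exact ((Nat.pow_lt_pow_iff_right (by norm_num)).1 h3).le

end Pool.Agent.E8helper83.GS
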